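import Pool.Agent.helper55.RI.Spec

set_option autoImplicit false

namespace Pool.Agent.RI

open Pool.Agent.helper62 Prog Function Pool.Agent.helper81.PL

theorem K2_first (hR2 : R2_stmt) (hK1 : K1_stmt) (A : Set W) (hA : RE A) :
    ∃ a, ∀ y, y ∈ A ↔ pre a y ∈ KS := by
  have h : REPred (fun p : ℕ × W => p.2 ∈ A) :=
    hR2.2.1 (ℕ × W) W (fun p => p.2) (fun y => y ∈ A) Computable.snd hA
  obtain ⟨b, hb⟩ := hK1.2 (fun _ y => y ∈ A) h
  exact ⟨b, fun y => (hb y).symm⟩

theorem K2_inj (a b : ℕ) (x y : W) (h : pre a x = pre b y) : a = b ∧ x = y := by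
  induction a generalizing b with
  | zero =>
    cases b with
    | zero =>
      simp only [pre, List.replicate_zero, List.nil_append, List.cons.injEq, true_and] at h
      exact ⟨rfl, h⟩
    | succ b => simp [pre, List.replicate_succ] at h
  | succ a ih =>
    cases b with
    | zero => simp [pre, List.replicate_succ] at h
    | succ b =>
      have h' : pre a x = pre b y := by
        simp only [pre, List.replicate_succ, List.cons_append, List.cons.injEq, true_and] at h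
        exact h
      obtain ⟨h1, h2⟩ := ih b h'
      exact ⟨by rw [h1], h2⟩

/-- the set of all `pre j x` with `x ∈ KS` -/
def K2_A : Set W := {w | ∃ (j : ℕ) (x : W), w = pre j x ∧ x ∈ KS}

theorem K2_mem (j : ℕ) (x : W) : pre j x ∈ K2_A ↔ x ∈ KS := by
  constructor
  · rintro ⟨j', x', h, hx⟩
    obtain ⟨_, h2⟩ := K2_inj j j' x x' h
    rw [h2]; exact hx
  · intro h
    exact ⟨j, x, rfl, h⟩

theorem K2_re (hR2 : R2_stmt) (hR3 : R3_stmt) (hR5 : R5_stmt) (hK1 : K1_stmt) : RE K2_A := by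
  -- predicate on ((w, j), x)
  have e1 : REPred (fun p : (W × ℕ) × W => p.1.1 = pre p.1.2 p.2) := by
    have hc : ComputablePred (fun p : (W × ℕ) × W => p.1.1 = pre p.1.2 p.2) := by
      have hf : Computable (fun p : (W × ℕ) × W => p.1.1) :=
        Computable.fst.comp Computable.fst
      have hg : Computable (fun p : (W × ℕ) × W => pre p.1.2 p.2) :=
        hR5.1.comp ((Computable.snd.comp Computable.fst).pair Computable.snd)
      exact hR3.2.2.2.1 ((W × ℕ) × W) W (fun p => p.1.1) (fun p => pre p.1.2 p.2) hf hg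
    exact hc.to_re
  have e2 : REPred (fun p : (W × ℕ) × W => p.2 ∈ KS) :=
    hR2.2.1 ((W × ℕ) × W) W (fun p => p.2) (fun y => y ∈ KS) Computable.snd hK1.1
  have e3 : REPred (fun p : (W × ℕ) × W => p.1.1 = pre p.1.2 p.2 ∧ p.2 ∈ KS) :=
    (hR2.1 ((W × ℕ) × W) _ _ e1 e2).1
  have e4 : REPred (fun q : W × ℕ => ∃ x : W, q.1 = pre q.2 x ∧ x ∈ KS) :=
    hR2.2.2.1 (W × ℕ) W (fun q x => q.1 = pre q.2 x ∧ x ∈ KS) e3
  exact hR2.2.2.1 W ℕ (fun w j => ∃ x : W, w = pre j x ∧ x ∈ KS) e4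

theorem K2 (hR2 : R2_stmt) (hR3 : R3_stmt) (hR5 : R5_stmt) (hK1 : K1_stmt) : K2_stmt := by
  refine ⟨K2_first hR2 hK1, ?_⟩
  obtain ⟨a, ha⟩ := K2_first hR2 hK1 K2_A (K2_re hR2 hR3 hR5 hK1)
  exact ⟨a, fun j x => (ha (pre j x)).symm.trans (K2_mem j x)⟩

end Pool.Agent.RI
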